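import Pool.Agent.helper69.LN.Spec

/-!
# Row ln:EMB
-/

set_option autoImplicit false

namespace Pool.Agent.LN

open Finset Pool.Agent.helper38.Neg Pool.Agent.helper55.NT

theorem EMB_pairs (r : ℕ) : 2 * Fintype.card (Pr r) + r ≤ r ^ 2 := by
  have h : Function.Injective (fun z : (Pr r ⊕ Pr r) ⊕ Fin r =>
      (Sum.elim (Sum.elim (fun e => e.1) (fun e => (e.1.2, e.1.1))) (fun i => (i, i)) z :
        Fin r × Fin r)) := by
    rintro ((⟨e, he⟩ | ⟨e, he⟩) | i) ((⟨f, hf⟩ | ⟨f, hf⟩) | j) hij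
    · simp only [Sum.elim_inl] at hij
      subst hij; rfl
    · simp only [Sum.elim_inl, Sum.elim_inr] at hij
      subst hij
      exact absurd he (lt_asymm hf)
    · simp only [Sum.elim_inl, Sum.elim_inr] at hij
      subst hij
      exact absurd he (lt_irrefl _)
    · simp only [Sum.elim_inl, Sum.elim_inr] at hij
      subst hij
      exact absurd he (lt_asymm hf)
    · simp only [Sum.elim_inl, Sum.elim_inr, Prod.mk.injEq] at hij
      have : e = f := Prod.ext hij.2 hij.1
      subst this; rfl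
    · simp only [Sum.elim_inl, Sum.elim_inr, Prod.mk.injEq] at hij
      rw [hij.1, hij.2] at he
      exact absurd he (lt_irrefl _)
    · simp only [Sum.elim_inl, Sum.elim_inr] at hij
      subst hij
      exact absurd hf (lt_irrefl _)
    · simp only [Sum.elim_inl, Sum.elim_inr, Prod.mk.injEq] at hij
      rw [← hij.1, ← hij.2] at hf
      exact absurd hf (lt_irrefl _)
    · simp only [Sum.elim_inr, Prod.mk.injEq] at hij
      rw [hij.1]
  have h1 := Fintype.card_le_of_injective _ h
  simp only [Fintype.card_sum, Fintype.card_fin, Fintype.card_prod] at h1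
  nlinarith

/-- the labels as prescribed and other labels -/
def EMB_to {M r : ℕ} {cen : Pr r → Fin M} {l w : ℕ} : Vt cen l w →
    (Ctr cen ⊕ Pr r) ⊕ (Pr r ⊕ (Fin l × Fin r) ⊕ (Pr l × Pr r) ⊕ Fin w)
  | Sum.inl q => Sum.inl (Sum.inl q)
  | Sum.inr (Sum.inl (e, true)) => Sum.inl (Sum.inr e)
  | Sum.inr (Sum.inl (e, false)) => Sum.inr (Sum.inl e)
  | Sum.inr (Sum.inr z) => Sum.inr (Sum.inr z)

def EMB_from {M r : ℕ} {cen : Pr r → Fin M} {l w : ℕ} :
    (Ctr cen ⊕ Pr r) ⊕ (Pr r ⊕ (Fin l × Fin r) ⊕ (Pr l × Pr r) ⊕ Fin w) → Vt cen l w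
  | Sum.inl (Sum.inl q) => Sum.inl q
  | Sum.inl (Sum.inr e) => Sum.inr (Sum.inl (e, true))
  | Sum.inr (Sum.inl e) => Sum.inr (Sum.inl (e, false))
  | Sum.inr (Sum.inr z) => Sum.inr (Sum.inr z)

theorem EMB_from_to {M r : ℕ} {cen : Pr r → Fin M} {l w : ℕ} (v : Vt cen l w) :
    EMB_from (EMB_to v) = v := by
  rcases v with q | ⟨e, b⟩ | z
  · rfl
  · cases b <;> rfl
  · rfl

theorem EMB : EMB_stmt := by
  classical
  intro M r l k U S hr hl hk hM
  set p := Fintype.card (Pr r) with hp
  set q := Fintype.card (Pr l) with hq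
  set c := Fintype.card (Ctr S.cen) with hc
  have h1 : 2 * p + r ≤ r ^ 2 := EMB_pairs r
  have h2 : 2 * q + l ≤ l ^ 2 := EMB_pairs l
  have h3 : c ≤ p := by
    have hs : Function.Surjective (fun e : Pr r => (⟨S.cen e, e, rfl⟩ : Ctr S.cen)) := by
      rintro ⟨x, e, rfl⟩
      exact ⟨e, rfl⟩
    exact Fintype.card_le_of_surjective _ hs
  have h4 : l ^ 2 ≤ r ^ 2 := Nat.pow_le_pow_left hl 2
  have h5 : c + p + l + q ≤ k := by
    have : q ≤ l ^ 2 := by omega
    omega
  obtain ⟨w, hw⟩ : ∃ w, c + p + l + q + w = k := ⟨k - (c + p + l + q), by omega⟩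
  have hcard : Nat.card (Kl S.cen l w) = k := by
    rw [Nat.card_eq_fintype_card]
    simp only [Fintype.card_sum, Fintype.card_fin]
    rw [← hw]
    omega
  let f : Ctr S.cen ⊕ Pr r → Fin M := Sum.elim (fun q => q.1) S.leaf
  have hf : Function.Injective f := by
    apply Function.Injective.sumElim Subtype.val_injective S.inj
    rintro ⟨x, e, rfl⟩ e'
    exact (S.dis e' e).symm
  have hle : Fintype.card (Pr r ⊕ (Fin l × Fin r) ⊕ (Pr l × Pr r) ⊕ Fin w) ≤
      Fintype.card ((Finset.univ.image f)ᶜ : Finset (Fin M)) := by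
    rw [Fintype.card_coe, Finset.card_compl, Finset.card_image_of_injective _ hf,
      Finset.card_univ]
    simp only [Fintype.card_sum, Fintype.card_fin, Fintype.card_prod]
    have h6 : p + l * r + q * p ≤ r ^ 4 := by
      have a1 : 2 * p ≤ r ^ 2 := by omega
      have a2 : 2 * q ≤ r ^ 2 := by omega
      have a3 : l * r ≤ r ^ 2 := by nlinarith
      have a4 : (2 * q) * (2 * p) ≤ r ^ 2 * r ^ 2 := Nat.mul_le_mul a2 a1
      have a5 : 4 ≤ r ^ 2 := by nlinarith
      have a6 : 4 * r ^ 2 ≤ r ^ 2 * r ^ 2 := Nat.mul_le_mul_right _ a5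
      have a7 : r ^ 4 = r ^ 2 * r ^ 2 := by ring
      rw [a7]
      nlinarith
    apply Nat.le_sub_of_add_le
    have e1 : Fintype.card (Ctr S.cen) = c := rfl
    have e2 : Fintype.card (Pr r) = p := rfl
    have e3 : Fintype.card (Pr l) = q := rfl
    rw [e1, e2, e3]
    omega
  obtain ⟨g⟩ := Function.Embedding.nonempty_of_card_le hle
  have hF : Function.Injective (Sum.elim f (fun z => (g z : Fin M))) := by
    apply Function.Injective.sumElim hf
    · intro a b hab
      exact g.injective (Subtype.ext hab)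
    · intro a b hab
      have hb := (g b).2
      rw [Finset.mem_compl] at hb
      apply hb
      rw [← hab]
      exact Finset.mem_image_of_mem _ (Finset.mem_univ _)
  refine ⟨w, fun v => Sum.elim f (fun z => (g z : Fin M)) (EMB_to v), hcard, ?_, ?_, ?_⟩
  · intro a b hab
    have := hF hab
    rw [← EMB_from_to a, ← EMB_from_to b, this]
  · intro q
    rfl
  · intro e
    rfl

end Pool.Agent.LN
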