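import Pool.Agent.helper69.LN.ESpec
import Pool.Agent.helper44.LN.EMB

/-!
# Row ln:EEM
-/

set_option autoImplicit false

namespace Pool.Agent.LN

open Finset Pool.Agent.helper38.Neg Pool.Agent.helper55.NT

/-- the labels as prescribed and other labels -/
def EEM_to {M r K : ℕ} {E : Finset (Fin M × Fin M)} {P : Pcs M r K E} {l w : ℕ} : Wt P l w →
    Tv P ⊕ (Tv P ⊕ (Fin l × Fin r) ⊕ (Pr l × Pr r × Fin K) ⊕ Fin w)
  | Sum.inl (a, true) => Sum.inl a
  | Sum.inl (a, false) => Sum.inr (Sum.inl a)
  | Sum.inr z => Sum.inr (Sum.inr z)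

def EEM_from {M r K : ℕ} {E : Finset (Fin M × Fin M)} {P : Pcs M r K E} {l w : ℕ} :
    Tv P ⊕ (Tv P ⊕ (Fin l × Fin r) ⊕ (Pr l × Pr r × Fin K) ⊕ Fin w) → Wt P l w
  | Sum.inl a => Sum.inl (a, true)
  | Sum.inr (Sum.inl a) => Sum.inl (a, false)
  | Sum.inr (Sum.inr z) => Sum.inr z

theorem EEM_from_to {M r K : ℕ} {E : Finset (Fin M × Fin M)} {P : Pcs M r K E} {l w : ℕ}
    (v : Wt P l w) : EEM_from (EEM_to v) = v := by
  rcases v with ⟨a, b⟩ | z
  · cases b <;> rfl
  · rfl

theorem EEM_touch {M r K : ℕ} {E : Finset (Fin M × Fin M)} (P : Pcs M r K E) :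
    Nat.card (Tv P) ≤ (touch E).card := by
  classical
  have h : ∀ a : Tv P, a.1 ∈ touch E := by
    rintro ⟨a, q, e, h⟩
    simp only [touch, Finset.mem_union, Finset.mem_image]
    rcases h with rfl | rfl <;> rcases P.mem q e with h1 | h1
    · exact Or.inl ⟨_, h1, rfl⟩
    · exact Or.inr ⟨_, h1, rfl⟩
    · exact Or.inr ⟨_, h1, rfl⟩
    · exact Or.inl ⟨_, h1, rfl⟩
  have h2 : Function.Injective (fun a : Tv P => (⟨a.1, h a⟩ : (touch E : Finset (Fin M)))) := by
    intro a b hab
    exact Subtype.ext (Subtype.mk.inj hab)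
  have h3 := Nat.card_le_card_of_injective _ h2
  simpa using h3

theorem EEM : EEM_stmt := by
  classical
  intro M r K l k E P hk hM
  set p := Fintype.card (Pr r) with hp
  set q := Fintype.card (Pr l) with hq
  set c := Fintype.card (Tv P) with hc
  have h1 : 2 * p + r ≤ r ^ 2 := EMB_pairs r
  have h2 : 2 * q + l ≤ l ^ 2 := EMB_pairs l
  have h3 : c ≤ (touch E).card := by
    have := EEM_touch P
    rwa [Nat.card_eq_fintype_card] at this
  obtain ⟨w, hw⟩ : ∃ w, c + l + q + w = k := ⟨k - (c + l + q), by omega⟩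
  have hcard : Nat.card (Wk P l w) = k := by
    rw [Nat.card_eq_fintype_card]
    simp only [Fintype.card_sum, Fintype.card_fin]
    rw [← hw]
    omega
  let f : Tv P → Fin M := fun a => a.1
  have hf : Function.Injective f := Subtype.val_injective
  have hle : Fintype.card (Tv P ⊕ (Fin l × Fin r) ⊕ (Pr l × Pr r × Fin K) ⊕ Fin w) ≤
      Fintype.card ((Finset.univ.image f)ᶜ : Finset (Fin M)) := by
    rw [Fintype.card_coe, Finset.card_compl, Finset.card_image_of_injective _ hf,
      Finset.card_univ]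
    simp only [Fintype.card_sum, Fintype.card_fin, Fintype.card_prod]
    have h6 : q * (p * K) ≤ l ^ 2 * r ^ 2 * K := by
      have a1 : p ≤ r ^ 2 := by omega
      have a2 : q ≤ l ^ 2 := by omega
      rw [← mul_assoc]
      exact Nat.mul_le_mul_right _ (Nat.mul_le_mul a2 a1)
    apply Nat.le_sub_of_add_le
    have e1 : Fintype.card (Tv P) = c := rfl
    have e2 : Fintype.card (Pr r) = p := rfl
    have e3 : Fintype.card (Pr l) = q := rfl
    rw [e1, e2, e3]
    omega
  obtain ⟨g⟩ := Function.Embedding.nonempty_of_card_le hle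
  have hF : Function.Injective (Sum.elim f (fun z => (g z : Fin M))) := by
    apply Function.Injective.sumElim hf
    · intro a b hab
      exact g.injective (Subtype.ext hab)
    · intro a b hab
      have hb := (g b).2
      rw [Finset.mem_compl] at hb
      apply hb
      rw [← hab]
      exact Finset.mem_image_of_mem _ (Finset.mem_univ _)
  refine ⟨w, fun v => Sum.elim f (fun z => (g z : Fin M)) (EEM_to v), hcard, ?_, ?_⟩
  · intro a b hab
    have := hF hab
    rw [← EEM_from_to a, ← EEM_from_to b, this]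
  · intro a
    rfl

end Pool.Agent.LN
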